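import Mathlib
import Pool.Agent.Q31.GLW.Stm

/-!
# Density: the value of a cyclically reduced word minus a nonzero scalar is onto
-/

set_option autoImplicit false

namespace Pool.Agent.Q222.GLW

open Module Cardinal Submodule
open Pool.Agent.Q31.GLW

lemma side_le {F V : Type} [Field F] [AddCommGroup V] [Module F V] (p : V →ₗ.[F] V) (b : Bool) :
    side p b ≤ side p true ⊔ side p false := by
  cases b
  · exact le_sup_right
  · exact le_sup_left

theorem t_DN (hIND : S_IND) (hICS : S_ICS) (hPATH : S_PATH) : S_DN := by
  intro F V _ _ _ U g hU k e M hk hM hcyc c v hc p hp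
  obtain ⟨hRd, hor⟩ := hcyc
  set Z : Submodule F V := side p true ⊔ side p false ⊔ span F {v} with hZdef
  have hZ : IC Z := hICS F V U g p (span F {v}) hU hp inferInstance
  have hs : ∀ b, side p b ≤ Z := fun b => (side_le p b).trans le_sup_left
  have hv : v ∈ Z := (le_sup_right : span F {v} ≤ Z) (mem_span_singleton_self v)
  -- the choice of the vector
  have key : ∃ y : V, k y ∉ side p e ∧ v + c • y ∉ side p (!(lastE e M)) ∧
      (e = lastE e M ∨ v + c • y ∉ side p (!(lastE e M)) ⊔ span F {k y}) := by
    by_cases hsc : Sc k
    · have he : e = lastE e M := by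
        rcases hor with h | h
        · exact h
        · exact absurd hsc h
      obtain ⟨d, hd⟩ := hsc
      have hne : Z ≠ ⊤ := by
        intro h
        apply hZ
        rw [h]
        have : Subsingleton (V ⧸ (⊤ : Submodule F V)) := by
          refine ⟨fun a b => ?_⟩
          obtain ⟨a, rfl⟩ := Submodule.mkQ_surjective _ a
          obtain ⟨b, rfl⟩ := Submodule.mkQ_surjective _ b
          exact (Submodule.Quotient.eq _).mpr Submodule.mem_top
        infer_instance
      obtain ⟨y, hy⟩ : ∃ y, y ∉ Z := by
        by_contra hcon
        push Not at hcon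
        exact hne (eq_top_iff.mpr fun x _ => hcon x)
      have hy0 : y ≠ 0 := by
        rintro rfl
        exact hy Z.zero_mem
      have hd0 : d ≠ 0 := by
        rintro rfl
        have h1 := hd y
        rw [zero_smul] at h1
        exact hy0 ((LinearEquiv.map_eq_zero_iff k).mp h1)
      refine ⟨y, ?_, ?_, Or.inl he⟩
      · intro h
        rw [hd y] at h
        exact hy ((Z.smul_mem_iff hd0).mp (hs _ h))
      · intro h
        have h1 : c • y ∈ Z := by
          have := Z.sub_mem (hs _ h) hv
          rwa [add_sub_cancel_left] at this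
        exact hy ((Z.smul_mem_iff hc).mp h1)
    · obtain ⟨y, hy⟩ := hIND F V k Z hsc hk hZ
      refine ⟨y, ?_, ?_, Or.inr ?_⟩
      · intro h
        have h1 := hy 0 1 (by rw [zero_smul, zero_add, one_smul]; exact hs _ h)
        exact one_ne_zero h1.2
      · intro h
        have h1 := hy c 0 (by
          have := Z.sub_mem (hs _ h) hv
          rw [add_sub_cancel_left] at this
          rw [zero_smul, add_zero]
          exact this)
        exact hc h1.1
      · intro h
        obtain ⟨z, hz, w, hw, hzw⟩ := Submodule.mem_sup.mp h
        obtain ⟨b, rfl⟩ := mem_span_singleton.mp hw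
        have h1 := hy c (-b) (by
          have h2 : c • y + (-b) • k y = z - v := by
            rw [neg_smul]
            have h3 : c • y = z + b • k y - v := by rw [hzw]; abel
            rw [h3]
            abel
          rw [h2]
          exact Z.sub_mem (hs _ hz) hv)
        exact hc h1.1
  obtain ⟨y, h1, h2, h3⟩ := key
  obtain ⟨q, hq, hpq, hqh⟩ := hPATH F V U g hU M k e p (k y) (v + c • y) hM hRd hp h1 h2 h3
  exact ⟨q, hq, hpq, fun h hh => ⟨y, hqh h hh⟩⟩

end Pool.Agent.Q222.GLW
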