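import Mathlib
import Pool.Agent.Q31.GLW.Stm

/-!
# Infinite codimension of domain plus range of a condition
-/

set_option autoImplicit false

namespace Pool.Agent.Q222.GLW

open Module Cardinal Submodule
open Pool.Agent.Q31.GLW

/-- a finite dimensional supplement gives a finite dimensional quotient -/
lemma fd_quot {F V : Type} [Field F] [AddCommGroup V] [Module F V] (U K : Submodule F V)
    (hK : FiniteDimensional F K) (h : U ⊔ K = ⊤) : FiniteDimensional F (V ⧸ U) := by
  refine Module.Finite.of_surjective (U.mkQ ∘ₗ K.subtype) ?_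
  intro q
  obtain ⟨v, rfl⟩ := U.mkQ_surjective q
  have hv : v ∈ U ⊔ K := by rw [h]; exact Submodule.mem_top
  obtain ⟨u, hu, k, hk, rfl⟩ := Submodule.mem_sup.mp hv
  refine ⟨⟨k, hk⟩, ?_⟩
  show U.mkQ k = U.mkQ (u + k)
  rw [map_add]
  have : U.mkQ u = 0 := by
    rw [Submodule.mkQ_apply]
    exact (Submodule.Quotient.mk_eq_zero U).mpr hu
  rw [this, zero_add]

lemma fd_of_le {F V : Type} [Field F] [AddCommGroup V] [Module F V] (U K S : Submodule F V)
    (hK : FiniteDimensional F K) (hS : S ≤ U ⊔ K) (hfin : FiniteDimensional F (V ⧸ S)) :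
    FiniteDimensional F (V ⧸ U) := by
  obtain ⟨L, hL⟩ := S.exists_isCompl
  have hLf : FiniteDimensional F L :=
    Module.Finite.equiv (Submodule.quotientEquivOfIsCompl S L hL)
  have hKL : FiniteDimensional F (K ⊔ L : Submodule F V) := inferInstance
  refine fd_quot U (K ⊔ L) hKL ?_
  rw [eq_top_iff, ← hL.sup_eq_top, ← sup_assoc]
  exact sup_le_sup_right hS L

theorem t_ICS : S_ICS := by
  intro F V _ _ _ U g p W hU hp hW
  obtain ⟨hinj, ⟨E, hE, hdom⟩, hext⟩ := hp
  intro hfin
  refine hU ?_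
  have hUd : U ≤ p.domain := by rw [hdom]; exact le_sup_left
  have hEd : E ≤ p.domain := by rw [hdom]; exact le_sup_right
  set E' : Submodule F V := LinearMap.range (p.toFun ∘ₗ Submodule.inclusion hEd) with hE'
  have hE'f : FiniteDimensional F E' := inferInstance
  have hrange : LinearMap.range p.toFun ≤ U ⊔ E' := by
    rintro _ ⟨x, rfl⟩
    have hx : (x : V) ∈ U ⊔ E := by rw [← hdom]; exact x.2
    obtain ⟨u, hu, e, he, hue⟩ := Submodule.mem_sup.mp hx
    have hxe : x = (⟨u, hUd hu⟩ : p.domain) + (⟨e, hEd he⟩ : p.domain) := by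
      apply Subtype.ext
      exact hue.symm
    have h1 : p.toFun (⟨u, hUd hu⟩ : p.domain) = (g ⟨u, hu⟩ : V) :=
      hext ⟨u, hu⟩ ⟨u, hUd hu⟩ rfl
    rw [hxe, map_add, h1]
    refine Submodule.add_mem_sup (g ⟨u, hu⟩).2 ?_
    exact ⟨⟨e, he⟩, rfl⟩
  have hW' : FiniteDimensional F (E ⊔ E' ⊔ W : Submodule F V) := inferInstance
  refine fd_of_le U (E ⊔ E' ⊔ W) (side p true ⊔ side p false ⊔ W) hW' ?_ hfin
  refine sup_le (sup_le ?_ ?_) ?_
  · show p.domain ≤ _
    rw [hdom]
    exact sup_le_sup_left (le_sup_left.trans le_sup_left) U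
  · exact hrange.trans (sup_le_sup_left (le_sup_right.trans le_sup_left) U)
  · exact le_sup_right.trans le_sup_right

end Pool.Agent.Q222.GLW
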